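import Mathlib
import Pool.Agent.Y757.GM.Stm

/-!
# GM-ZL: asymptotics of the mean value of `log ζ` over the square
-/

set_option autoImplicit false

namespace Pool.Agent.Y872.GM

open MeasureTheory Set Filter Topology
open Pool.Agent.Y757.GM (Zh S_ZL)

/-- `log |ζ(1 + u)|` -/
noncomputable def ff (u : ℝ) : ℝ := Real.log ‖riemannZeta (1 + (u : ℂ))‖

/-- `log |ζ(1 + u)| + log u` for `0 < u ≤ c`, and zero otherwise -/
noncomputable def gg (c : ℝ) : ℝ → ℝ := (Ioc 0 c).indicator fun u => ff u + Real.log u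

theorem zeta_ne {u : ℝ} (hu : 0 < u) : riemannZeta (1 + (u : ℂ)) ≠ 0 :=
  riemannZeta_ne_zero_of_one_lt_re (by simp [hu])

theorem lim_gg : Tendsto (fun u : ℝ => ff u + Real.log u) (𝓝[>] 0) (𝓝 0) := by
  have h1 : Tendsto (fun u : ℝ => (1 + (u : ℂ))) (𝓝[>] 0) (𝓝[≠] 1) := by
    rw [tendsto_nhdsWithin_iff]
    refine ⟨?_, ?_⟩
    · have h2 : Tendsto (fun u : ℝ => (1 + (u : ℂ))) (𝓝 0) (𝓝 (1 + ((0 : ℝ) : ℂ))) :=
        (continuous_const.add Complex.continuous_ofReal).tendsto 0
      rw [Complex.ofReal_zero, add_zero] at h2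
      exact h2.mono_left nhdsWithin_le_nhds
    · filter_upwards [self_mem_nhdsWithin] with u hu
      rw [mem_Ioi] at hu
      intro h3
      have h4 : (u : ℂ) = 0 := by
        have h5 : (1 + (u : ℂ)) = 1 := h3
        simpa using h5
      exact hu.ne' (by exact_mod_cast h4)
  have h2 := (riemannZeta_residue_one.comp h1).norm
  have h3 : Tendsto (fun u : ℝ => Real.log ‖(1 + (u : ℂ) - 1) * riemannZeta (1 + (u : ℂ))‖)
      (𝓝[>] 0) (𝓝 (Real.log ‖(1 : ℂ)‖)) := by
    refine Tendsto.log h2 ?_
    rw [norm_one]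
    exact one_ne_zero
  rw [norm_one, Real.log_one] at h3
  refine h3.congr' ?_
  filter_upwards [self_mem_nhdsWithin] with u hu
  rw [mem_Ioi] at hu
  rw [add_sub_cancel_left, norm_mul, Complex.norm_real, Real.norm_of_nonneg hu.le,
    Real.log_mul hu.ne' (norm_ne_zero_iff.2 (zeta_ne hu)), add_comm]
  rfl

theorem cont_ff : ContinuousOn (fun u : ℝ => ff u + Real.log u) (Ioi 0) := by
  intro u hu
  rw [mem_Ioi] at hu
  refine ContinuousAt.continuousWithinAt ?_
  refine ContinuousAt.add ?_ (Real.continuousAt_log hu.ne')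
  unfold ff
  refine ContinuousAt.log ?_ (norm_ne_zero_iff.2 (zeta_ne hu))
  refine ContinuousAt.norm ?_
  have h1 : (1 + (u : ℂ)) ≠ 1 := by
    intro h2
    have h3 : (u : ℂ) = 0 := by simpa using h2
    exact hu.ne' (by exact_mod_cast h3)
  have h2 : ContinuousAt riemannZeta (1 + (u : ℂ)) :=
    (differentiableAt_riemannZeta h1).continuousAt
  exact ContinuousAt.comp (f := fun u : ℝ => (1 + (u : ℂ))) h2
    (continuous_const.add Complex.continuous_ofReal).continuousAt

theorem int_gg {c ε : ℝ} (hb : ∀ u, 0 < u → u ≤ c → |ff u + Real.log u| ≤ ε) (a b : ℝ) :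
    IntervalIntegrable (gg c) volume a b := by
  have h1 : IntegrableOn (fun u : ℝ => ff u + Real.log u) (Ioc 0 c) volume := by
    refine Integrable.of_bound (C := ε) ?_ ?_
    · exact (cont_ff.mono fun u hu => hu.1).aestronglyMeasurable measurableSet_Ioc
    · filter_upwards [ae_restrict_mem measurableSet_Ioc] with u hu
      rw [Real.norm_eq_abs]
      exact hb u hu.1 hu.2
  have h2 : Integrable (gg c) volume := by
    unfold gg
    rw [integrable_indicator_iff measurableSet_Ioc]
    exact h1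
  exact h2.intervalIntegrable

theorem abs_gg {c ε : ℝ} (hε : 0 ≤ ε) (hb : ∀ u, 0 < u → u ≤ c → |ff u + Real.log u| ≤ ε)
    (u : ℝ) : |gg c u| ≤ ε := by
  unfold gg
  by_cases h : u ∈ Ioc 0 c
  · rw [indicator_of_mem h]
    exact hb u h.1 h.2
  · rw [indicator_of_notMem h, abs_zero]
    exact hε

/-- the inner integral -/
theorem inner {h ε : ℝ} (hh : 0 < h) (hb : ∀ u, 0 < u → u ≤ 2 * h → |ff u + Real.log u| ≤ ε)
    {x : ℝ} (hx0 : 0 < x) (hxh : x ≤ h) :
    ∫ y in (0 : ℝ)..h, ff (x + y) = (∫ u in x..(x + h), gg (2 * h) u) -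
      ((x + h) * Real.log (x + h) - x * Real.log x - h) := by
  rw [intervalIntegral.integral_comp_add_left (fun u => ff u) x, add_zero]
  have h1 : ∫ u in x..(x + h), ff u = ∫ u in x..(x + h), (gg (2 * h) u - Real.log u) := by
    refine intervalIntegral.integral_congr fun u hu => ?_
    rw [uIcc_of_le (by linarith)] at hu
    have h2 : u ∈ Ioc 0 (2 * h) := ⟨by linarith [hu.1], by linarith [hu.2]⟩
    show ff u = gg (2 * h) u - Real.log u
    unfold gg
    rw [indicator_of_mem h2]
    ring
  rw [h1, intervalIntegral.integral_sub (int_gg hb _ _) intervalIntegral.intervalIntegrable_log',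
    integral_log]
  ring

theorem primitive_cont {c ε : ℝ} (hb : ∀ u, 0 < u → u ≤ c → |ff u + Real.log u| ≤ ε) (h : ℝ) :
    Continuous fun x : ℝ => ∫ u in x..(x + h), gg c u := by
  have h1 := intervalIntegral.continuous_primitive (fun a b => int_gg hb a b) 0
  have h2 : (fun x : ℝ => ∫ u in x..(x + h), gg c u) =
      fun x => (∫ u in (0 : ℝ)..(x + h), gg c u) - ∫ u in (0 : ℝ)..x, gg c u := by
    funext x
    rw [intervalIntegral.integral_interval_sub_left (int_gg hb _ _) (int_gg hb _ _)]
  rw [h2]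
  exact (h1.comp (continuous_id.add continuous_const)).sub h1

/-- antiderivative of `u log u` -/
noncomputable def Ps (u : ℝ) : ℝ := (2 * (u * (u * Real.log u)) - u ^ 2) / 4

theorem int_ulog {a b : ℝ} (ha : 0 ≤ a) (hab : a ≤ b) :
    ∫ u in a..b, u * Real.log u = Ps b - Ps a := by
  refine intervalIntegral.integral_eq_sub_of_hasDerivAt_of_le hab ?_ ?_ ?_
  · unfold Ps
    refine Continuous.continuousOn ?_
    have := Real.continuous_mul_log
    fun_prop
  · intro u hu
    have hu0 : 0 < u := lt_of_le_of_lt ha hu.1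
    unfold Ps
    have h1 : HasDerivAt (fun u : ℝ => Real.log u) u⁻¹ u := Real.hasDerivAt_log hu0.ne'
    have h2 : HasDerivAt (fun u : ℝ => u * Real.log u) (1 * Real.log u + u * u⁻¹) u :=
      (hasDerivAt_id u).mul h1
    have h3 : HasDerivAt (fun u : ℝ => u * (u * Real.log u))
        (1 * (u * Real.log u) + u * (1 * Real.log u + u * u⁻¹)) u := (hasDerivAt_id u).mul h2
    have h4 : HasDerivAt (fun u : ℝ => (2 * (u * (u * Real.log u)) - u ^ 2) / 4)
        ((2 * (1 * (u * Real.log u) + u * (1 * Real.log u + u * u⁻¹)) - 2 * u) / 4) u := by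
      have h5 : HasDerivAt (fun u : ℝ => u ^ 2) (2 * u) u := by
        simpa using hasDerivAt_pow 2 u
      exact ((h3.const_mul 2).sub h5).div_const 4
    have h6 : u * u⁻¹ = 1 := mul_inv_cancel₀ hu0.ne'
    rw [h6] at h4
    have h7 : u * Real.log u = (2 * (1 * (u * Real.log u) + u * (1 * Real.log u + 1)) - 2 * u) / 4 := by
      ring
    rw [h7]
    exact h4
  · exact Real.continuous_mul_log.intervalIntegrable _ _

theorem int_log2 {h : ℝ} (hh : 0 < h) :
    ∫ x in (0 : ℝ)..h, ((x + h) * Real.log (x + h) - x * Real.log x - h) =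
      h ^ 2 * (Real.log (4 * h) - 3 / 2) := by
  have c1 : Continuous fun x : ℝ => (x + h) * Real.log (x + h) :=
    Real.continuous_mul_log.comp (continuous_id.add continuous_const)
  have c2 : Continuous fun x : ℝ => (x + h) * Real.log (x + h) - x * Real.log x :=
    c1.sub Real.continuous_mul_log
  rw [intervalIntegral.integral_sub (c2.intervalIntegrable _ _)
    (continuous_const.intervalIntegrable _ _),
    intervalIntegral.integral_sub (c1.intervalIntegrable _ _)
      (Real.continuous_mul_log.intervalIntegrable _ _),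
    intervalIntegral.integral_comp_add_right (fun u => u * Real.log u) h,
    int_ulog (by linarith) (by linarith), int_ulog le_rfl hh.le,
    intervalIntegral.integral_const]
  have e1 : Real.log (h + h) = Real.log 2 + Real.log h := by
    rw [← two_mul, Real.log_mul two_ne_zero hh.ne']
  have e2 : Real.log (4 * h) = 2 * Real.log 2 + Real.log h := by
    rw [Real.log_mul (by norm_num) hh.ne', show (4 : ℝ) = 2 ^ 2 by norm_num, Real.log_pow]
    norm_num
  unfold Ps
  rw [zero_add, e1, e2]
  simp only [smul_eq_mul]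
  ring

/-- ZL -/
theorem t_ZL : S_ZL := by
  unfold S_ZL
  rw [Metric.tendsto_nhds]
  intro ε hε
  have h1 := lim_gg
  rw [Metric.tendsto_nhds] at h1
  have h2 := h1 (ε / 2) (by positivity)
  rw [eventually_nhdsWithin_iff, Metric.eventually_nhds_iff] at h2
  obtain ⟨δ, hδ, h3⟩ := h2
  rw [eventually_nhdsWithin_iff, Metric.eventually_nhds_iff]
  refine ⟨δ / 2, by positivity, fun h hhd hh => ?_⟩
  rw [mem_Ioi] at hh
  rw [Real.dist_eq, sub_zero, abs_of_pos hh] at hhd
  have hb : ∀ u, 0 < u → u ≤ 2 * h → |ff u + Real.log u| ≤ ε / 2 := by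
    intro u hu hu2
    have h4 := h3 (y := u) (by rw [Real.dist_eq, sub_zero, abs_of_pos hu]; linarith) hu
    rw [Real.dist_eq, sub_zero] at h4
    exact h4.le
  have h5 : ∫ x in (0 : ℝ)..h, ∫ y in (0 : ℝ)..h, Real.log ‖riemannZeta (1 + x + y)‖ =
      (∫ x in (0 : ℝ)..h, ∫ u in x..(x + h), gg (2 * h) u) - h ^ 2 * (Real.log (4 * h) - 3 / 2) := by
    rw [← int_log2 hh]
    have c1 : Continuous fun x : ℝ => (x + h) * Real.log (x + h) :=
      Real.continuous_mul_log.comp (continuous_id.add continuous_const)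
    have c2 : Continuous fun x : ℝ => (x + h) * Real.log (x + h) - x * Real.log x - h :=
      (c1.sub Real.continuous_mul_log).sub continuous_const
    rw [← intervalIntegral.integral_sub ((primitive_cont hb h).intervalIntegrable _ _)
      (c2.intervalIntegrable _ _)]
    rw [intervalIntegral.integral_of_le hh.le, intervalIntegral.integral_of_le hh.le]
    refine setIntegral_congr_fun measurableSet_Ioc fun x hx => ?_
    have h6 := inner hh hb hx.1 hx.2
    show (∫ y in (0 : ℝ)..h, Real.log ‖riemannZeta (1 + x + y)‖) = _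
    rw [← h6]
    refine intervalIntegral.integral_congr fun y _ => ?_
    show _ = Real.log ‖riemannZeta (1 + ((x + y : ℝ) : ℂ))‖
    rw [Complex.ofReal_add, ← add_assoc]
  have h7 : Zh h + Real.log (4 * h) - 3 / 2 =
      1 / h ^ 2 * ∫ x in (0 : ℝ)..h, ∫ u in x..(x + h), gg (2 * h) u := by
    unfold Zh
    rw [h5]
    field_simp
    ring
  rw [Real.dist_eq, sub_zero, h7, abs_mul, abs_of_pos (by positivity : 0 < 1 / h ^ 2)]
  have h8 : |∫ x in (0 : ℝ)..h, ∫ u in x..(x + h), gg (2 * h) u| ≤ (ε / 2 * h) * |h - 0| := by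
    rw [← Real.norm_eq_abs]
    refine intervalIntegral.norm_integral_le_of_norm_le_const fun x _ => ?_
    have h9 : ‖∫ u in x..(x + h), gg (2 * h) u‖ ≤ (ε / 2) * |x + h - x| :=
      intervalIntegral.norm_integral_le_of_norm_le_const fun u _ => by
        rw [Real.norm_eq_abs]
        exact abs_gg (by positivity) hb u
    rwa [add_sub_cancel_left, abs_of_pos hh] at h9
  rw [sub_zero, abs_of_pos hh] at h8
  calc 1 / h ^ 2 * |∫ x in (0 : ℝ)..h, ∫ u in x..(x + h), gg (2 * h) u|
      ≤ 1 / h ^ 2 * (ε / 2 * h * h) := mul_le_mul_of_nonneg_left h8 (by positivity)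
    _ = ε / 2 := by field_simp
    _ < ε := by linarith

end Pool.Agent.Y872.GM
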